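import Pool.Agent.H75.L.W662.CB.Stmts

set_option autoImplicit false

open MeasureTheory Filter Topology Complex
open scoped InnerProductSpace ENNReal

namespace Pool.Agent.W315.CB

open Pool.Agent.W662.CB

theorem a8 (h8a : S_A8a) (h8b : S_A8b) (h8c : S_A8c) : S_A8 := by
  intro H _ _ _ M N ξ U E hNM hcyc hsep hmod hE hφ t x hx
  obtain ⟨P, hPs, hP⟩ := h8b H M N ξ E hNM hcyc hE hφ
  have hUU' : ∀ s : ℝ, U s * star (U s) = 1 := by
    intro s
    rw [hmod.star_eq, ← hmod.add, add_neg_cancel, hmod.zero]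
  have hsξ : ∀ (s : ℝ) (y : H →L[ℂ] H), sgm U s y ξ = U s (y ξ) := by
    intro s y
    have h1 : sgm U s y ξ = U s (y (star (U s) ξ)) := rfl
    rw [h1, hmod.star_eq, hmod.fix]
  have hFξ : ∀ F : ℂ → H →L[ℂ] H, IsAn M U F → ∀ s : ℝ, F s ξ = U s (F 0 ξ) := by
    intro F hF s
    rw [hF.ext s, hsξ]
  have key : ∀ F G : ℂ → H →L[ℂ] H, IsAn M U F → IsAn M U G → ∀ s : ℝ,
      ⟪U s (G 0 ξ), P (U s (F 0 ξ))⟫_ℂ = ⟪G 0 ξ, P (F 0 ξ)⟫_ℂ := by
    intro F G hF hG s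
    rw [← hFξ F hF s, ← hFξ G hG s]
    exact h8c H M N ξ U E hNM hmod hE hφ P hPs hP F G hF hG s
  have key2 : ∀ a b : H →L[ℂ] H, a ∈ M → b ∈ M → ∀ s : ℝ,
      ⟪U s (b ξ), P (U s (a ξ))⟫_ℂ = ⟪b ξ, P (a ξ)⟫_ℂ := by
    intro a b ha hb s
    obtain ⟨F, hF, hFt⟩ := h8a H M ξ U hmod a ha
    obtain ⟨G, hG, hGt⟩ := h8a H M ξ U hmod b hb
    have hFt' := hFt ξ
    have hGt' := hGt ξ
    have l1 : Tendsto (fun n => ⟪U s (G n 0 ξ), P (U s (F n 0 ξ))⟫_ℂ) atTop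
        (𝓝 ⟪U s (b ξ), P (U s (a ξ))⟫_ℂ) := by
      refine Tendsto.inner ?_ ?_
      · exact ((U s).continuous.tendsto _).comp hGt'
      · exact (P.continuous.tendsto _).comp (((U s).continuous.tendsto _).comp hFt')
    have l2 : Tendsto (fun n => ⟪G n 0 ξ, P (F n 0 ξ)⟫_ℂ) atTop
        (𝓝 ⟪b ξ, P (a ξ)⟫_ℂ) := by
      refine Tendsto.inner hGt' ?_
      exact (P.continuous.tendsto _).comp hFt'
    have l3 : (fun n => ⟪U s (G n 0 ξ), P (U s (F n 0 ξ))⟫_ℂ)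
        = fun n => ⟪G n 0 ξ, P (F n 0 ξ)⟫_ℂ := by
      funext n
      exact key (F n) (G n) (hF n) (hG n) s
    rw [l3] at l1
    exact tendsto_nhds_unique l1 l2
  have key3 : ∀ (v w : H) (s : ℝ), ⟪U s w, P (U s v)⟫_ℂ = ⟪w, P v⟫_ℂ := by
    intro v w s
    have h1 : ∀ b : H →L[ℂ] H, b ∈ M → ∀ v : H, ⟪U s (b ξ), P (U s v)⟫_ℂ = ⟪b ξ, P v⟫_ℂ := by
      intro b hb v
      have h2 : (fun v : H => ⟪U s (b ξ), P (U s v)⟫_ℂ) = fun v : H => ⟪b ξ, P v⟫_ℂ := by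
        refine Continuous.ext_on hcyc ?_ ?_ ?_
        · exact continuous_const.inner (P.continuous.comp (U s).continuous)
        · exact continuous_const.inner P.continuous
        · rintro u ⟨a, ha, rfl⟩
          exact key2 a b ha hb s
      exact congrFun h2 v
    have h2 : (fun w : H => ⟪U s w, P (U s v)⟫_ℂ) = fun w : H => ⟪w, P v⟫_ℂ := by
      refine Continuous.ext_on hcyc ?_ ?_ ?_
      · exact (U s).continuous.inner continuous_const
      · exact continuous_id.inner continuous_const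
      · rintro u ⟨b, hb, rfl⟩
        exact h1 b hb v
    exact congrFun h2 w
  have comm : ∀ (s : ℝ) (v : H), P (U s v) = U s (P v) := by
    intro s v
    refine ext_inner_left ℂ ?_
    intro u
    have h1 : U s (star (U s) u) = u := by
      have := congrArg (fun T : H →L[ℂ] H => T u) (hUU' s)
      simpa using this
    calc ⟪u, P (U s v)⟫_ℂ = ⟪U s (star (U s) u), P (U s v)⟫_ℂ := by rw [h1]
      _ = ⟪star (U s) u, P v⟫_ℂ := key3 _ _ _
      _ = ⟪u, U s (P v)⟫_ℂ := by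
        rw [ContinuousLinearMap.star_eq_adjoint, ContinuousLinearMap.adjoint_inner_left]
  have hyM : sgm U t x ∈ M := hmod.mem t x (hNM x hx)
  have e1 : E (sgm U t x) ξ = sgm U t x ξ := by
    rw [← hP _ hyM, hsξ, comm, hP x (hNM x hx), hE.proj x hx]
  have hEy : E (sgm U t x) ∈ N := hE.mem _ hyM
  have hsub : E (sgm U t x) - sgm U t x = 0 := by
    refine hsep _ (sub_mem (hNM _ hEy) hyM) ?_
    rw [ContinuousLinearMap.sub_apply, e1, sub_self]
  rw [sub_eq_zero] at hsub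
  rw [← hsub]
  exact hEy

end Pool.Agent.W315.CB
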